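import Mathlib
import Pool.Agent.H299.GenHyp4
import Pool.Agent.H299.GenHyp6

/-!
# Shadowing and generalized hyperbolicity of shift operators: the role of complemented subspaces

The definitions `BanachSp`, `Op`, `HasShadowing`, `IsGeneralizedHyperbolic`, `seqSp`,
`IsShiftOperator` are those of the starting result `ShadowingNotGenHyp` of this problem, which gives
one (non-separable) example.
-/

set_option autoImplicit false

open scoped ENNReal Topology
open Filter Set

noncomputable section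

namespace Pool.Agent.Results.MP_0764b2_an.ComplementationCriterion

open Pool.Agent.Results.MP_0764b2_an.ShadowingNotGenHyp

variable {𝕜 : Type} [RCLike 𝕜]

/-- the subspace `Z` is complemented in `Y`: some bounded linear operator of `Y` maps `Y` into `Z`
and fixes the elements of `Z` -/
def IsComplemented {Y : BanachSp 𝕜} (Z : Submodule 𝕜 Y.carrier) : Prop :=
  ∃ R : Y.carrier →L[𝕜] Y.carrier, (∀ y, R y ∈ Z) ∧ ∀ z ∈ Z, R z = z

/-- `Y` is linearly isometric to a subspace of `X` onto which there is a projection of norm at most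
one -/
def IsOneComplementedIn (Y X : BanachSp 𝕜) : Prop :=
  ∃ (J : Y.carrier →L[𝕜] X.carrier) (π : X.carrier →L[𝕜] Y.carrier),
    (∀ y, ‖J y‖ = ‖y‖) ∧ (∀ x, ‖π x‖ ≤ ‖x‖) ∧ ∀ y, π (J y) = y

/-- the Banach space `X` is separable -/
def IsSep (X : BanachSp 𝕜) : Prop := TopologicalSpace.SeparableSpace X.carrier

theorem separable_seqSp {X : BanachSp 𝕜} (hX : IsSep X) (p : ℝ≥0∞) [hp : Fact (1 ≤ p)]
    (hp2 : p ≠ ∞) : IsSep (seqSp X p) := by
  have hX' : TopologicalSpace.SeparableSpace X.carrier := hX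
  show TopologicalSpace.SeparableSpace (lp (fun _ : ℤ => X.carrier) p)
  set s : Set (lp (fun _ : ℤ => X.carrier) p) :=
    ⋃ n : ℤ, range (fun z : X.carrier =>
      lp.singleContinuousLinearMap 𝕜 (fun _ : ℤ => X.carrier) p n z) with hs
  have hsep : TopologicalSpace.IsSeparable s :=
    TopologicalSpace.IsSeparable.iUnion fun n =>
      TopologicalSpace.isSeparable_range (ContinuousLinearMap.continuous _)
  have hsp : TopologicalSpace.IsSeparable
      (closure (Submodule.span 𝕜 s : Set (lp (fun _ : ℤ => X.carrier) p))) :=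
    (hsep.span (R := 𝕜)).closure
  have huniv : closure (Submodule.span 𝕜 s : Set (lp (fun _ : ℤ => X.carrier) p)) = univ := by
    rw [eq_univ_iff_forall]
    intro y
    have h1 := lp.hasSum_single hp2 y
    refine mem_closure_of_tendsto h1 (Eventually.of_forall fun G => ?_)
    exact Submodule.sum_mem _ fun d _ => Submodule.subset_span (mem_iUnion.2 ⟨d, y d, rfl⟩)
  rw [huniv] at hsp
  exact TopologicalSpace.isSeparable_univ_iff.1 hsp

/-- **Complementation criterion.**

(1) For every Banach space `Y` over `𝕜 = ℝ` or `ℂ` and every closed subspace `Z` of `Y` there are a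
Banach space `X`, separable if `Y` is, which contains a 1-complemented isometric copy of `Y`, and a
bounded invertible operator `A` of `X` such that `A` and, for every `p ∈ [1, ∞]`, the shift operator
`(x_n) ↦ (A x_{n+1})` on `ℓ^p(ℤ, X)` have the shadowing property, and each of them is generalized
hyperbolic if and only if `Z` is complemented in `Y`.

(2) Every Banach space `Y` is isometric to a 1-complemented subspace of a Banach space `X`,
separable if `Y` is, with a bounded invertible operator `A` such that `A` and all the shift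
operators `(x_n) ↦ (A x_{n+1})` on `ℓ^p(ℤ, X)` have the shadowing property but are not generalized
hyperbolic; the space `ℓ^p(ℤ, X)` is separable if `Y` is and `p < ∞`.

(3) In particular (`Y = 𝕜`) there is such a separable `X`. -/
theorem result (𝕜 : Type) [RCLike 𝕜] :
    (∀ (Y : BanachSp 𝕜) (Z : Submodule 𝕜 Y.carrier), IsClosed (Z : Set Y.carrier) →
      ∃ (X : BanachSp 𝕜) (A : Op X), (IsSep Y → IsSep X) ∧ IsOneComplementedIn Y X ∧
        HasShadowing A ∧ (IsGeneralizedHyperbolic A ↔ IsComplemented Z) ∧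
        ∀ (p : ℝ≥0∞) (_ : Fact (1 ≤ p)), ∃ σ : Op (seqSp X p), IsShiftOperator (fun _ => A) σ ∧
          HasShadowing σ ∧ (IsGeneralizedHyperbolic σ ↔ IsComplemented Z)) ∧
    (∀ Y : BanachSp 𝕜, ∃ (X : BanachSp 𝕜) (A : Op X), (IsSep Y → IsSep X) ∧
        IsOneComplementedIn Y X ∧ HasShadowing A ∧ ¬ IsGeneralizedHyperbolic A ∧
        ∀ (p : ℝ≥0∞) (_ : Fact (1 ≤ p)), (IsSep Y → p ≠ ∞ → IsSep (seqSp X p)) ∧
          ∃ σ : Op (seqSp X p), IsShiftOperator (fun _ => A) σ ∧
            HasShadowing σ ∧ ¬ IsGeneralizedHyperbolic σ) ∧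
    (∃ (X : BanachSp 𝕜) (A : Op X), IsSep X ∧ HasShadowing A ∧ ¬ IsGeneralizedHyperbolic A ∧
        ∀ (p : ℝ≥0∞) (_ : Fact (1 ≤ p)), (p ≠ ∞ → IsSep (seqSp X p)) ∧
          ∃ σ : Op (seqSp X p), IsShiftOperator (fun _ => A) σ ∧
            HasShadowing σ ∧ ¬ IsGeneralizedHyperbolic σ) := by
  have part2 : ∀ Y : BanachSp 𝕜, ∃ (X : BanachSp 𝕜) (A : Op X), (IsSep Y → IsSep X) ∧
        IsOneComplementedIn Y X ∧ HasShadowing A ∧ ¬ IsGeneralizedHyperbolic A ∧
        ∀ (p : ℝ≥0∞) (_ : Fact (1 ≤ p)), (IsSep Y → p ≠ ∞ → IsSep (seqSp X p)) ∧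
          ∃ σ : Op (seqSp X p), IsShiftOperator (fun _ => A) σ ∧
            HasShadowing σ ∧ ¬ IsGeneralizedHyperbolic σ := by
    intro Y
    set Y' : BanachSp 𝕜 := ⟨Y.carrier × Pool.Agent.H299.GenHyp6.L1 𝕜⟩ with hY'
    set Z' : Submodule 𝕜 (Y.carrier × Pool.Agent.H299.GenHyp6.L1 𝕜) :=
      Submodule.prod ⊥ (Pool.Agent.H299.GenHyp6.Z 𝕜) with hZ'
    have hmem : ∀ x, x ∈ Z' ↔ x.1 = 0 ∧ x.2 ∈ Pool.Agent.H299.GenHyp6.Z 𝕜 := by
      intro x
      rw [hZ', Submodule.mem_prod, Submodule.mem_bot]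
    have hcl : IsClosed (Z' : Set (Y.carrier × Pool.Agent.H299.GenHyp6.L1 𝕜)) := by
      have h1 : (Z' : Set (Y.carrier × Pool.Agent.H299.GenHyp6.L1 𝕜)) =
          {x | x.1 = 0} ∩ {x | x.2 ∈ (Pool.Agent.H299.GenHyp6.Z 𝕜 : Set _)} := by
        ext x
        rw [SetLike.mem_coe, hmem]
        exact Iff.rfl
      rw [h1]
      exact (isClosed_eq continuous_fst continuous_const).inter
        (Pool.Agent.H299.GenHyp6.isClosed_Z.preimage continuous_snd)
    have hno : ¬ Pool.Agent.H299.GenHyp.IsComplemented (Y := Y') Z' := by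
      rintro ⟨R, h1, h2⟩
      set R1 : Pool.Agent.H299.GenHyp6.L1 𝕜 →L[𝕜] Pool.Agent.H299.GenHyp6.L1 𝕜 :=
        (ContinuousLinearMap.snd 𝕜 Y.carrier (Pool.Agent.H299.GenHyp6.L1 𝕜)).comp
          (R.comp (ContinuousLinearMap.inr 𝕜 Y.carrier (Pool.Agent.H299.GenHyp6.L1 𝕜))) with hR1
      refine Pool.Agent.H299.GenHyp6.not_complemented R1 (fun y => ?_) (fun z hz => ?_)
      · exact ((hmem _).1 (h1 (0, y))).2
      · have h3 : R (0, z) = (0, z) := h2 (0, z) ((hmem _).2 ⟨rfl, hz⟩)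
        show (R (0, z)).2 = z
        rw [h3]
    obtain ⟨X, A, h1, ⟨J, π, h2, h3, h4⟩, h5, h6, h7⟩ :=
      Pool.Agent.H299.GenHyp.general Y' Z' hcl
    have hsepX : IsSep Y → IsSep X := by
      intro hY
      have hY1 : TopologicalSpace.SeparableSpace Y.carrier := hY
      have hL1 : TopologicalSpace.SeparableSpace (Pool.Agent.H299.GenHyp6.L1 𝕜) :=
        Pool.Agent.H299.GenHyp6.separable_L1
      have h8 : TopologicalSpace.SeparableSpace
          (Y.carrier × Pool.Agent.H299.GenHyp6.L1 𝕜) := inferInstance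
      exact h1 h8
    refine ⟨X, A, hsepX, ?_, h5, fun h => hno (h6.1 h), fun p hp => ⟨fun hY hp2 =>
      separable_seqSp (hsepX hY) p hp2, ?_⟩⟩
    · refine ⟨J.comp (ContinuousLinearMap.inl 𝕜 Y.carrier (Pool.Agent.H299.GenHyp6.L1 𝕜)),
        (ContinuousLinearMap.fst 𝕜 Y.carrier (Pool.Agent.H299.GenHyp6.L1 𝕜)).comp π,
        fun y => ?_, fun x => ?_, fun y => ?_⟩
      · show ‖J (y, 0)‖ = ‖y‖
        rw [h2]
        show ‖((y, 0) : Y.carrier × Pool.Agent.H299.GenHyp6.L1 𝕜)‖ = ‖y‖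
        rw [Prod.norm_mk, norm_zero]
        exact max_eq_left (norm_nonneg _)
      · exact (norm_fst_le _).trans (h3 x)
      · show (π (J (y, 0))).1 = y
        rw [h4]
    · obtain ⟨σ, h9, h10, h11⟩ := h7 p hp
      exact ⟨σ, h9, h10, fun h => hno (h11.1 h)⟩
  refine ⟨fun Y Z hZ => Pool.Agent.H299.GenHyp.general Y Z hZ, part2, ?_⟩
  obtain ⟨X, A, h1, -, h2, h3, h4⟩ := part2 ⟨𝕜⟩
  have h𝕜 : IsSep (⟨𝕜⟩ : BanachSp 𝕜) := by
    show TopologicalSpace.SeparableSpace 𝕜
    infer_instance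
  exact ⟨X, A, h1 h𝕜, h2, h3, fun p hp => ⟨(h4 p hp).1 h𝕜, (h4 p hp).2⟩⟩

end Pool.Agent.Results.MP_0764b2_an.ComplementationCriterion
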